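import Mathlib

/-!
# Absolutely continuous measures and iterated sequential closures

If `Φ = lim s n` is a weak* limit of positive functionals and `f` is integrable for `Φ`, choose
continuous `h k → f` in `L¹`. The functionals `h (k n) · s n`, with `k n → ∞` slowly, converge weak* to
`f · Φ`. As multiplication by a fixed continuous function maps `Seq^β (co Δ)` to `Seq^β (lin Δ)`, the
theorem follows by induction.
-/

open MeasureTheory Filter Topology Set

universe u v

namespace Pool.Agent.Results.MP_1e6c42_an.AbsolutelyContinuous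

variable {K : Type u} [TopologicalSpace K] [CompactSpace K]

/-- The set of all weak* limits of weak* convergent sequences of elements of `A ⊆ C(K)*`. -/
def Seq (A : Set (C(K, ℝ) →L[ℝ] ℝ)) : Set (C(K, ℝ) →L[ℝ] ℝ) :=
  {φ | ∃ s : ℕ → (C(K, ℝ) →L[ℝ] ℝ), (∀ n, s n ∈ A) ∧
    ∀ g, Tendsto (fun n => s n g) atTop (𝓝 (φ g))}

/-- The iterated sequential closures `Seq^α(A)`. -/
noncomputable def SeqIter (A : Set (C(K, ℝ) →L[ℝ] ℝ)) (α : Ordinal.{v}) :
    Set (C(K, ℝ) →L[ℝ] ℝ) :=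
  Ordinal.limitRecOn α A (fun _ B => Seq B) (fun o _ f => ⋃ β, ⋃ h : β < o, f β h)

/-- The set of Dirac measures, as functionals. -/
def diracs (K : Type u) [TopologicalSpace K] [CompactSpace K] : Set (C(K, ℝ) →L[ℝ] ℝ) :=
  {φ | ∃ x : K, ∀ g, φ g = g x}

/-- The functional `φ` is integration against the measure `μ`. -/
def Represents [MeasurableSpace K] (φ : C(K, ℝ) →L[ℝ] ℝ) (μ : Measure K) : Prop :=
  ∀ g : C(K, ℝ), φ g = ∫ x, g x ∂μ

/-- The functional `φ` is integration against the signed measure `ν`. -/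
def RepresentsSigned [MeasurableSpace K] (φ : C(K, ℝ) →L[ℝ] ℝ) (ν : SignedMeasure K) : Prop :=
  ∀ g : C(K, ℝ), φ g = (∫ x, g x ∂ν.toJordanDecomposition.posPart) -
    ∫ x, g x ∂ν.toJordanDecomposition.negPart

omit [CompactSpace K] in
lemma seqIter_zero (A : Set (C(K, ℝ) →L[ℝ] ℝ)) : SeqIter A (0 : Ordinal.{v}) = A :=
  Ordinal.limitRecOn_zero _ _ _

omit [CompactSpace K] in
lemma seqIter_succ (A : Set (C(K, ℝ) →L[ℝ] ℝ)) (α : Ordinal.{v}) :
    SeqIter A (α + 1) = Seq (SeqIter A α) := Ordinal.limitRecOn_add_one _ _ _ _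

omit [CompactSpace K] in
lemma seqIter_limit (A : Set (C(K, ℝ) →L[ℝ] ℝ)) (α : Ordinal.{v}) (h : Order.IsSuccLimit α) :
    SeqIter A α = ⋃ β, ⋃ _ : β < α, SeqIter A β := Ordinal.limitRecOn_limit _ _ _ _ h

/-- multiplication by a continuous function -/
noncomputable def mulR (h : C(K, ℝ)) (φ : C(K, ℝ) →L[ℝ] ℝ) : C(K, ℝ) →L[ℝ] ℝ :=
  φ.comp (ContinuousLinearMap.mul ℝ C(K, ℝ) h)

lemma mulR_apply (h : C(K, ℝ)) (φ : C(K, ℝ) →L[ℝ] ℝ) (g : C(K, ℝ)) :
    mulR h φ g = φ (h * g) := rfl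

/-- multiplication as a linear map -/
noncomputable def mulL (h : C(K, ℝ)) : (C(K, ℝ) →L[ℝ] ℝ) →ₗ[ℝ] (C(K, ℝ) →L[ℝ] ℝ) where
  toFun := mulR h
  map_add' := fun _ _ => rfl
  map_smul' := fun _ _ => rfl

lemma mul_mem_of_hull (h : C(K, ℝ)) (T : Set (C(K, ℝ) →L[ℝ] ℝ)) (hT : T ⊆ diracs K)
    (φ : C(K, ℝ) →L[ℝ] ℝ) (hφ : φ ∈ Submodule.span ℝ T) : mulR h φ ∈ Submodule.span ℝ T := by
  have h1 : Submodule.span ℝ T ≤ (Submodule.span ℝ T).comap (mulL h) := by
    rw [Submodule.span_le]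
    intro ψ hψ
    obtain ⟨x, hx⟩ := hT hψ
    change mulR h ψ ∈ Submodule.span ℝ T
    have : mulR h ψ = h x • ψ := by
      ext g
      rw [mulR_apply, hx]
      simp [hx]
    rw [this]
    exact Submodule.smul_mem _ _ (Submodule.subset_span hψ)
  exact h1 hφ

omit [CompactSpace K] in
lemma hull_le_span (T : Set (C(K, ℝ) →L[ℝ] ℝ)) :
    convexHull ℝ T ⊆ (Submodule.span ℝ T : Set (C(K, ℝ) →L[ℝ] ℝ)) :=
  convexHull_min Submodule.subset_span (Submodule.convex _)

lemma mul_mem (α : Ordinal.{v}) : ∀ φ ∈ SeqIter (convexHull ℝ (diracs K)) α, ∀ h : C(K, ℝ),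
    mulR h φ ∈ SeqIter (Submodule.span ℝ (diracs K) : Set (C(K, ℝ) →L[ℝ] ℝ)) α := by
  induction α using Ordinal.limitRecOn with
  | zero =>
    intro φ hφ h
    rw [seqIter_zero] at hφ ⊢
    exact mul_mem_of_hull h _ Subset.rfl φ (hull_le_span _ hφ)
  | add_one α ih =>
    intro φ hφ h
    rw [seqIter_succ] at hφ ⊢
    obtain ⟨s, h1, h2⟩ := hφ
    exact ⟨fun n => mulR h (s n), fun n => ih _ (h1 n) h, fun g => h2 (h * g)⟩
  | limit α hα ih =>
    intro φ hφ h
    rw [seqIter_limit _ _ hα] at hφ ⊢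
    simp only [mem_iUnion] at hφ ⊢
    obtain ⟨β, hβ, h1⟩ := hφ
    exact ⟨β, hβ, ih β hβ φ h1 h⟩

lemma pos_mem (α : Ordinal.{v}) : ∀ φ ∈ SeqIter (convexHull ℝ (diracs K)) α, ∀ g : C(K, ℝ),
    0 ≤ g → 0 ≤ φ g := by
  induction α using Ordinal.limitRecOn with
  | zero =>
    intro φ hφ g hg
    rw [seqIter_zero] at hφ
    have h1 : convexHull ℝ (diracs K) ⊆ {φ : C(K, ℝ) →L[ℝ] ℝ | 0 ≤ φ g} := by
      refine convexHull_min ?_ ?_
      · rintro ψ ⟨x, hx⟩
        rw [mem_ofPred_eq, hx]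
        exact hg x
      · intro a ha b hb s t hs ht _
        simp only [mem_ofPred_eq] at ha hb ⊢
        change 0 ≤ s * a g + t * b g
        positivity
    exact h1 hφ
  | add_one α ih =>
    intro φ hφ g hg
    rw [seqIter_succ] at hφ
    obtain ⟨s, h1, h2⟩ := hφ
    exact ge_of_tendsto' (h2 g) fun n => ih _ (h1 n) g hg
  | limit α hα ih =>
    intro φ hφ g hg
    rw [seqIter_limit _ _ hα] at hφ
    simp only [mem_iUnion] at hφ
    obtain ⟨β, hβ, h1⟩ := hφ
    exact ih β hβ φ h1 g hg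

lemma pos_bound (φ : C(K, ℝ) →L[ℝ] ℝ) (hφ : ∀ g : C(K, ℝ), 0 ≤ g → 0 ≤ φ g) (a g : C(K, ℝ)) :
    |φ (a * g)| ≤ ‖g‖ * φ |a| := by
  have h1 : ∀ x, |a x * g x| ≤ ‖g‖ * |a x| := by
    intro x
    rw [abs_mul, mul_comm]
    exact mul_le_mul_of_nonneg_right (g.norm_coe_le_norm x) (abs_nonneg _)
  have h2 := hφ (‖g‖ • |a| - a * g) (fun x => by
    have := (abs_le.1 (h1 x)).2
    change 0 ≤ ‖g‖ * |a x| - a x * g x
    linarith)
  have h3 := hφ (‖g‖ • |a| + a * g) (fun x => by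
    have := (abs_le.1 (h1 x)).1
    change 0 ≤ ‖g‖ * |a x| + a x * g x
    linarith)
  rw [map_sub, map_smul, smul_eq_mul] at h2
  rw [map_add, map_smul, smul_eq_mul] at h3
  rw [abs_le]
  constructor <;> linarith

/-- choice of a slow diagonal -/
lemma exists_diag (P : ℕ → ℕ → Prop) (hP : ∀ j, ∀ᶠ n in atTop, P j n) :
    ∃ k : ℕ → ℕ, Tendsto k atTop atTop ∧ ∀ n, ∀ j < k n, P j n := by
  classical
  choose N hN using fun j => eventually_atTop.1 (hP j)
  refine ⟨fun n => Nat.findGreatest (fun k => ∀ j < k, N j ≤ n) n, ?_, ?_⟩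
  · rw [tendsto_atTop]
    intro b
    filter_upwards [eventually_ge_atTop b, (Finset.range b).eventually_all.2
      fun j _ => eventually_ge_atTop (N j)] with n hn1 hn2
    exact Nat.le_findGreatest hn1 fun j hj => hn2 j (Finset.mem_range.2 hj)
  · intro n j hj
    have h1 : ∀ j < Nat.findGreatest (fun k => ∀ j < k, N j ≤ n) n, N j ≤ n :=
      Nat.findGreatest_spec (P := fun k => ∀ j < k, N j ≤ n) (Nat.zero_le n) (by simp)
    exact hN j n (h1 j hj)

lemma closed_fd {E : Type*} [NormedAddCommGroup E] [NormedSpace ℝ E] (W : Submodule ℝ E)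
    [FiniteDimensional ℝ W] (x : ℕ → E) (y : E) (hx : ∀ k, x k ∈ W)
    (h : ∀ k, ‖x k - y‖ ≤ (1 / 2) ^ k) : y ∈ W := by
  have h1 : IsClosed (W : Set E) := W.closed_of_finiteDimensional
  have h2 : Tendsto x atTop (𝓝 y) := by
    rw [tendsto_iff_norm_sub_tendsto_zero]
    exact squeeze_zero (fun _ => norm_nonneg _) h
      (tendsto_pow_atTop_nhds_zero_of_lt_one (by norm_num : (0 : ℝ) ≤ 1 / 2) (by norm_num))
  exact h1.mem_of_tendsto h2 (Eventually.of_forall hx)

section Main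

variable [T2Space K] [MeasurableSpace K] [BorelSpace K]

omit [T2Space K] in
lemma integrable_cont (μ : Measure K) [IsFiniteMeasure μ] (g : C(K, ℝ)) :
    Integrable (fun x => g x) μ :=
  Integrable.of_bound g.continuous.aestronglyMeasurable ‖g‖
    (Eventually.of_forall fun x => g.norm_coe_le_norm x)

lemma dense (μ : Measure K) [IsFiniteMeasure μ] [μ.Regular] (f : K → ℝ) (hf : Integrable f μ)
    (ε : ℝ) (hε : 0 < ε) : ∃ h : C(K, ℝ), ∫ x, |f x - h x| ∂μ ≤ ε := by
  obtain ⟨g, h1, -⟩ := hf.exists_boundedContinuous_integral_sub_le hε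
  exact ⟨g.toContinuousMap, h1⟩

omit [T2Space K] in
lemma int_bound (μ : Measure K) [IsFiniteMeasure μ] (f : K → ℝ) (hf : Integrable f μ)
    (h g : C(K, ℝ)) : |∫ x, h x * g x ∂μ - ∫ x, f x * g x ∂μ| ≤
      ‖g‖ * ∫ x, |f x - h x| ∂μ := by
  have h1 : Integrable (fun x => h x * g x) μ := integrable_cont μ (h * g)
  have h2 : Integrable (fun x => f x * g x) μ :=
    hf.mul_bdd g.continuous.aestronglyMeasurable (Eventually.of_forall g.norm_coe_le_norm)
  have h3 : Integrable (fun x => |f x - h x|) μ := (hf.sub (integrable_cont μ h)).abs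
  rw [← integral_sub h1 h2, ← integral_const_mul]
  refine (abs_integral_le_integral_abs).trans (integral_mono (h1.sub h2).abs (h3.const_mul _) ?_)
  intro x
  change |h x * g x - f x * g x| ≤ ‖g‖ * |f x - h x|
  rw [← sub_mul, abs_mul, abs_sub_comm, mul_comm]
  exact mul_le_mul_of_nonneg_right (g.norm_coe_le_norm x) (abs_nonneg _)

/-- the main step -/
lemma main (μ : Measure K) [IsFiniteMeasure μ] [μ.Regular] (f : K → ℝ) (hf : Integrable f μ)
    (φ ψ : C(K, ℝ) →L[ℝ] ℝ) (hφ : Represents φ μ) (hψ : ∀ g, ψ g = ∫ x, f x * g x ∂μ)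
    (α : Ordinal.{v}) (h : φ ∈ SeqIter (convexHull ℝ (diracs K)) α) :
    ψ ∈ SeqIter (Submodule.span ℝ (diracs K) : Set (C(K, ℝ) →L[ℝ] ℝ)) α := by
  have hdense : ∀ k : ℕ, ∃ h : C(K, ℝ), ∫ x, |f x - h x| ∂μ ≤ (1 / 2) ^ k :=
    fun k => dense μ f hf _ (by positivity)
  choose a ha using hdense
  have hclose : ∀ k g, |φ (a k * g) - ψ g| ≤ ‖g‖ * (1 / 2) ^ k := by
    intro k g
    rw [hφ, hψ]
    exact (int_bound μ f hf (a k) g).trans (mul_le_mul_of_nonneg_left (ha k) (norm_nonneg g))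
  induction α using Ordinal.limitRecOn with
  | zero =>
    rw [seqIter_zero] at h ⊢
    obtain ⟨T, hT, hT1⟩ := Submodule.mem_span_finite_of_mem_span (hull_le_span _ h)
    have h2 : ∀ k, mulR (a k) φ ∈ Submodule.span ℝ (T : Set (C(K, ℝ) →L[ℝ] ℝ)) :=
      fun k => mul_mem_of_hull (a k) _ hT φ hT1
    refine Submodule.span_mono hT (closed_fd _ (fun k => mulR (a k) φ) ψ h2 fun k => ?_)
    refine ContinuousLinearMap.opNorm_le_bound _ (by positivity) fun g => ?_
    rw [Real.norm_eq_abs, mul_comm]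
    exact hclose k g
  | limit α hα ih =>
    rw [seqIter_limit _ _ hα] at h ⊢
    simp only [mem_iUnion] at h ⊢
    obtain ⟨β, hβ, h1⟩ := h
    exact ⟨β, hβ, ih β hβ h1⟩
  | add_one α _ =>
    rw [seqIter_succ] at h ⊢
    obtain ⟨s, h1, h2⟩ := h
    have hstep : ∀ j, φ |a (j + 1) - a j| < 3 * (1 / 2) ^ j := by
      intro j
      rw [hφ]
      have e1 : ∫ x, (|a (j + 1) - a j| : C(K, ℝ)) x ∂μ ≤
          (∫ x, |f x - a (j + 1) x| ∂μ) + ∫ x, |f x - a j x| ∂μ := by
        have i1 : Integrable (fun x => |f x - a (j + 1) x|) μ :=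
          (hf.sub (integrable_cont μ _)).abs
        have i2 : Integrable (fun x => |f x - a j x|) μ := (hf.sub (integrable_cont μ _)).abs
        rw [← integral_add i1 i2]
        refine integral_mono (integrable_cont μ _) (i1.add i2) fun x => ?_
        change |a (j + 1) x - a j x| ≤ |f x - a (j + 1) x| + |f x - a j x|
        have := abs_sub_le (a (j + 1) x) (f x) (a j x)
        rwa [abs_sub_comm (a (j + 1) x) (f x)] at this
      have e2 := ha (j + 1)
      have e3 := ha j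
      have e4 : (0 : ℝ) < (1 / 2) ^ j := by positivity
      rw [pow_succ] at e2
      linarith
    obtain ⟨k, hk1, hk2⟩ := exists_diag (fun j n => s n |a (j + 1) - a j| < 3 * (1 / 2) ^ j)
      fun j => (h2 |a (j + 1) - a j|).eventually (gt_mem_nhds (hstep j))
    have hpos : ∀ n, ∀ g : C(K, ℝ), 0 ≤ g → 0 ≤ s n g := fun n => pos_mem α _ (h1 n)
    have htel : ∀ n m g l, m ≤ l → l ≤ k n → |s n (a l * g) - s n (a m * g)| ≤
        ‖g‖ * (6 * ((1 / 2) ^ m - (1 / 2) ^ l)) := by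
      intro n m g l hml
      induction l, hml using Nat.le_induction with
      | base => intro _; simp
      | succ l hml ih =>
        intro hl
        have e1 := ih (by omega)
        have e2 := pos_bound (s n) (hpos n) (a (l + 1) - a l) g
        have e3 := hk2 n l (by omega)
        have e4 : s n (a (l + 1) * g) - s n (a m * g) = s n ((a (l + 1) - a l) * g) +
            (s n (a l * g) - s n (a m * g)) := by
          rw [sub_mul, map_sub]; ring
        rw [e4]
        have e5 : ‖g‖ * s n |a (l + 1) - a l| ≤ ‖g‖ * (3 * (1 / 2) ^ l) :=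
          mul_le_mul_of_nonneg_left e3.le (norm_nonneg g)
        have e6 : ‖g‖ * (6 * ((1 / 2 : ℝ) ^ m - (1 / 2) ^ (l + 1))) =
            ‖g‖ * (3 * (1 / 2) ^ l) + ‖g‖ * (6 * ((1 / 2) ^ m - (1 / 2) ^ l)) := by
          rw [pow_succ]; ring
        rw [e6]
        exact (abs_add_le _ _).trans (add_le_add (e2.trans e5) e1)
    refine ⟨fun n => mulR (a (k n)) (s n), fun n => mul_mem α _ (h1 n) _, fun g => ?_⟩
    rw [Metric.tendsto_atTop']
    intro ε hε
    obtain ⟨m, hm⟩ : ∃ m : ℕ, ‖g‖ * (7 * (1 / 2) ^ m) < ε / 2 := by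
      have : Tendsto (fun m : ℕ => ‖g‖ * (7 * (1 / 2 : ℝ) ^ m)) atTop (𝓝 (‖g‖ * (7 * 0))) :=
        ((tendsto_pow_atTop_nhds_zero_of_lt_one (by norm_num) (by norm_num)).const_mul 7).const_mul _
      rw [mul_zero, mul_zero] at this
      exact (this.eventually (gt_mem_nhds (by positivity))).exists
    have e1 := (hk1.eventually (eventually_ge_atTop m)).and
      ((h2 (a m * g)).eventually (Metric.ball_mem_nhds _ (by positivity : 0 < ε / 2)))
    obtain ⟨n0, hn0⟩ := eventually_atTop.1 e1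
    refine ⟨n0, fun n hn => ?_⟩
    obtain ⟨e2, e3⟩ := hn0 n hn.le
    rw [mulR_apply, Real.dist_eq]
    have e4 := htel n m g (k n) e2 le_rfl
    have e5 := hclose m g
    change |s n (a m * g) - φ (a m * g)| < ε / 2 at e3
    have e6 : (0 : ℝ) ≤ ‖g‖ * (6 * (1 / 2) ^ (k n)) := by positivity
    have e7 : s n (a (k n) * g) - ψ g = (s n (a (k n) * g) - s n (a m * g)) +
        ((s n (a m * g) - φ (a m * g)) + (φ (a m * g) - ψ g)) := by ring
    rw [e7]
    have e8 := abs_add_le (s n (a (k n) * g) - s n (a m * g))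
      ((s n (a m * g) - φ (a m * g)) + (φ (a m * g) - ψ g))
    have e9 := abs_add_le (s n (a m * g) - φ (a m * g)) (φ (a m * g) - ψ g)
    nlinarith

end Main

/-- If the Radon probability measure `μ` is in `Seq^α(co Δ)` and `ν ≪ μ`, then `ν` is in
`Seq^α(lin Δ)`. -/
theorem result {K : Type u} [TopologicalSpace K] [CompactSpace K] [T2Space K]
    [MeasurableSpace K] [BorelSpace K] (α : Ordinal.{v}) (μ : Measure K) [IsProbabilityMeasure μ]
    [μ.Regular] (ν : SignedMeasure K)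
    (hν : ∀ B, MeasurableSet B → μ B = 0 → ν.totalVariation B = 0)
    (φ ψ : C(K, ℝ) →L[ℝ] ℝ) (hφ : Represents φ μ) (hψ : RepresentsSigned ψ ν)
    (h : φ ∈ SeqIter (convexHull ℝ (diracs K)) α) :
    ψ ∈ SeqIter (Submodule.span ℝ (diracs K) : Set (C(K, ℝ) →L[ℝ] ℝ)) α := by
  have h0 : ν.totalVariation ≪ μ := Measure.AbsolutelyContinuous.mk fun B hB h0 => hν B hB h0
  obtain ⟨h1, h2⟩ := (SignedMeasure.totalVariation_absolutelyContinuous_iff ν μ).1 h0
  set p := ν.toJordanDecomposition.posPart with hp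
  set q := ν.toJordanDecomposition.negPart with hq
  have i1 : Integrable (fun x => (p.rnDeriv μ x).toReal) μ := Measure.integrable_toReal_rnDeriv
  have i2 : Integrable (fun x => (q.rnDeriv μ x).toReal) μ := Measure.integrable_toReal_rnDeriv
  refine main μ (fun x => (p.rnDeriv μ x).toReal - (q.rnDeriv μ x).toReal) (i1.sub i2) φ ψ hφ
    (fun g => ?_) α h
  rw [hψ g, ← integral_rnDeriv_smul h1, ← integral_rnDeriv_smul h2, ← integral_sub]
  · exact integral_congr_ae (Eventually.of_forall fun x => by simp [sub_mul])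
  · exact i1.mul_bdd g.continuous.aestronglyMeasurable (Eventually.of_forall g.norm_coe_le_norm)
  · exact i2.mul_bdd g.continuous.aestronglyMeasurable (Eventually.of_forall g.norm_coe_le_norm)

end Pool.Agent.Results.MP_1e6c42_an.AbsolutelyContinuous
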